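import Pool.Agent.H370.G.R_seed8.R841.TD.Dim

/-! Admissible maps: preserve the eigenspaces of `A` and reverse the flag of `B`. -/

set_option autoImplicit false

namespace Pool.Agent.H370.Adm

open Polynomial Module Pool.Agent.Helper9.TD Pool.Agent.R841.TD

variable {K : Type*} [Field K] {V : Type*} [AddCommGroup V] [Module K V]

/-- `S V_i = V_i` and `S (V*_0 + ⋯ + V*_i) = V*_d + ⋯ + V*_{d-i}` for `0 ≤ i ≤ d`. -/
def Admissible (A B : Module.End K V) (d : ℕ) (a b : ℕ → K) (S : Module.End K V) : Prop :=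
  (∀ i ≤ d, (A.eigenspace (a i)).map S = A.eigenspace (a i)) ∧
  (∀ i ≤ d, (⨆ (k : ℕ) (_ : k ≤ i), B.eigenspace (b k)).map S =
    ⨆ (k : ℕ) (_ : k ≤ d ∧ d ≤ k + i), B.eigenspace (b k))

/-- `S τ_{j,s} q = τ_{j,s} (σ_j q)` for `2 j + s ≤ d` and `q ∈ L_j`. -/
def GivenBy (A : Module.End K V) (d : ℕ) (a : ℕ → K) {L L' : ℕ → Submodule K V}
    (σ : ∀ j, L j ≃ₗ[K] L' j) (S : Module.End K V) : Prop :=
  ∀ j s, 2 * j + s ≤ d → ∀ q : L j, S (tau A a j s q) = tau A a j s (σ j q : V)

variable {A B : Module.End K V} {d : ℕ} {a b : ℕ → K} {P Q : ℕ → Module.End K V}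

/-- commuting with `A` means commuting with the projections -/
theorem comm_P (iA : Idem A d a P) {S : Module.End K V} (hS : ∀ v, S (A v) = A (S v)) (i : ℕ)
    (hi : i ≤ d) (v : V) : P i (S v) = S (P i v) := by
  have h1 : ∀ j ≤ d, P i (S (P j v)) = if i = j then S (P j v) else 0 := by
    intro j hj
    have h2 : A (S (P j v)) = a j • S (P j v) := by
      rw [← hS, iA.eig j hj, map_smul]
    have h3 := iA.mem j hj _ h2
    rw [← h3, iA.orth i hi j hj, h3]
  have h2 : P i (S v) = P i (S (∑ j ∈ Finset.range (d + 1), P j v)) := by rw [iA.sum]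
  rw [h2, map_sum, map_sum, Finset.sum_congr rfl (fun j hj => h1 j (by
    simpa [Nat.lt_succ_iff] using hj)), Finset.sum_ite_eq, if_pos (Finset.mem_range.mpr (by omega))]

theorem top_zero (h : Sys A B d a P d b Q) (j : ℕ) (q : V)
    (hq : ∀ k ≤ d, (k < j ∨ d - j < k) → P k q = 0) :
    aeval A (str a j (d + 1 - 2 * j)) q = 0 := by
  refine h.iA.eq_zero _ fun k hk => ?_
  rw [P_aeval h.iA k hk]
  by_cases hkj : k < j ∨ d - j < k
  · rw [hq k hk hkj, smul_zero]
  · rw [str_eval, Finset.prod_eq_zero (i := k - j) (Finset.mem_range.mpr (by omega)), zero_smul]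
    rw [show j + (k - j) = k by omega, sub_self]

theorem A_tau (j s : ℕ) (q : V) : A (aeval A (str a j s) q) =
    aeval A (str a j (s + 1)) q + a (j + s) • aeval A (str a j s) q := by
  rw [str_succ, mul_comm, map_mul, Module.End.mul_apply]
  simp only [map_sub, aeval_X, aeval_C, LinearMap.sub_apply, Module.algebraMap_end_apply]
  abel

/-- A map intertwining the strings commutes with `A`. -/
theorem Sys.comm_of (h : Sys A B d a P d b Q) {S : Module.End K V} (σ : ∀ j, LW d P Q j → V)
    (hσ : ∀ j, ∀ q : LW d P Q j, ∀ k ≤ d, (k < j ∨ d - j < k) → P k (σ j q) = 0)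
    (hS : ∀ j s, 2 * j + s ≤ d → ∀ q : LW d P Q j,
      S (aeval A (str a j s) (q : V)) = aeval A (str a j s) (σ j q)) (v : V) :
    S (A v) = A (S v) := by
  have h1 : S ∘ₗ A = A ∘ₗ S := by
    refine Sys.map_ext h _ _ fun j s hjs q hq => ?_
    rw [LinearMap.comp_apply, LinearMap.comp_apply, A_tau, map_add, map_smul,
      hS j s hjs ⟨q, hq⟩, A_tau]
    congr 1
    by_cases hjs' : 2 * j + (s + 1) ≤ d
    · exact hS j (s + 1) hjs' ⟨q, hq⟩
    · have hs : s + 1 = d + 1 - 2 * j := by omega
      rw [hs, top_zero h j q, top_zero h j _ (hσ j ⟨q, hq⟩), map_zero]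
      intro k hk hkj
      rcases hkj with hkj | hkj
      · exact (mem_LW.mp hq).2.1 k hk hkj
      · exact LW_P hq k hk hkj
  exact LinearMap.congr_fun h1 v

/-- A map intertwining the strings respects the flags. -/
theorem Sys.flag_of (h : Sys A B d a P d b Q) {b' : ℕ → K} {Q' : ℕ → Module.End K V}
    (h' : Sys A B d a P d b' Q') {S : Module.End K V} (σ : ∀ j, LW d P Q j → V)
    (hσ : ∀ j, ∀ q : LW d P Q j, ∀ k ≤ d, j < k → Q' k (σ j q) = 0)
    (hS : ∀ j s, 2 * j + s ≤ d → ∀ q : LW d P Q j,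
      S (aeval A (str a j s) (q : V)) = aeval A (str a j s) (σ j q)) (i : ℕ) : i ≤ d → ∀ v : V,
    (∀ k ≤ d, i < k → Q k v = 0) → ∀ k ≤ d, i < k → Q' k (S v) = 0 := by
  have hU : ∀ i ≤ d, ∀ v ∈ NN d P d Q i i, ∀ k ≤ d, i < k → Q' k (S v) = 0 := by
    intro i hi v hv k hk hik
    obtain ⟨q, hq, hqe⟩ := Sys.gen h i hi v hv
    rw [hqe, map_sum, map_sum]
    refine Finset.sum_eq_zero fun j hj => ?_
    rw [Finset.mem_filter, Finset.mem_range] at hj
    rw [hS j (i - j) (by omega) ⟨q j, hq j⟩]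
    exact Q_str h'.iB h'.triB a j j _ (hσ j ⟨q j, hq j⟩) (i - j) k hk (by omega)
  induction i with
  | zero =>
    intro hi v hv k hk hik
    exact hU 0 hi v (mem_NN.mpr ⟨hv, fun k _ hk => by omega⟩) k hk hik
  | succ i ih =>
    intro hi v hv k hk hik
    obtain ⟨u, w, huw, hu, hw⟩ := Sys.split h i v
    have hw' : w ∈ NN d P d Q (i + 1) (i + 1) := by
      refine mem_NN.mpr ⟨fun l hl hil => ?_, hw⟩
      have : w = v - u := by rw [huw]; abel
      rw [this, map_sub, hv l hl hil, hu l hl (by omega), sub_zero]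
    rw [huw, map_add, map_add, ih (by omega) u hu k hk (by omega),
      hU (i + 1) hi w hw' k hk hik, add_zero]

/-- admissibility in terms of the projections -/
theorem admissible_iff (_iA : Idem A d a P) (iB : Idem B d b Q) (S : Module.End K V) :
    Admissible A B d a b S ↔
      (∀ i ≤ d, ∀ v, A v = a i • v ↔ ∃ w, A w = a i • w ∧ S w = v) ∧
      (∀ i ≤ d, ∀ v, (∀ k ≤ d, k + i < d → Q k v = 0) ↔
        ∃ w, (∀ k ≤ d, i < k → Q k w = 0) ∧ S w = v) := by
  have e1 : ∀ i ≤ d, (A.eigenspace (a i)).map S = A.eigenspace (a i) ↔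
      ∀ v, A v = a i • v ↔ ∃ w, A w = a i • w ∧ S w = v := by
    intro i _
    rw [SetLike.ext_iff]
    refine forall_congr' fun v => ?_
    rw [Submodule.mem_map, Module.End.mem_eigenspace_iff]
    simp only [Module.End.mem_eigenspace_iff]
    exact ⟨Iff.symm, Iff.symm⟩
  have e2 : ∀ i ≤ d, (⨆ (k : ℕ) (_ : k ≤ i), B.eigenspace (b k)).map S =
      (⨆ (k : ℕ) (_ : k ≤ d ∧ d ≤ k + i), B.eigenspace (b k)) ↔
      ∀ v, (∀ k ≤ d, k + i < d → Q k v = 0) ↔ ∃ w, (∀ k ≤ d, i < k → Q k w = 0) ∧ S w = v := by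
    intro i hi
    rw [SetLike.ext_iff]
    refine forall_congr' fun v => ?_
    rw [Submodule.mem_map, mem_iSup_iff iB _ (fun k hk => hk.1)]
    have e3 : ∀ w, w ∈ (⨆ (k : ℕ) (_ : k ≤ i), B.eigenspace (b k)) ↔
        ∀ k ≤ d, i < k → Q k w = 0 := by
      intro w
      rw [mem_iSup_iff iB _ (fun k hk => by omega)]
      simp only [not_le]
    simp only [e3]
    have e4 : (∀ k ≤ d, ¬ (k ≤ d ∧ d ≤ k + i) → Q k v = 0) ↔ ∀ k ≤ d, k + i < d → Q k v = 0 := by
      constructor
      · intro h k hk hki; exact h k hk (by omega)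
      · intro h k hk hki; exact h k hk (by omega)
    rw [e4]
    exact ⟨Iff.symm, Iff.symm⟩
  constructor
  · rintro ⟨h1, h2⟩
    exact ⟨fun i hi => (e1 i hi).mp (h1 i hi), fun i hi => (e2 i hi).mp (h2 i hi)⟩
  · rintro ⟨h1, h2⟩
    exact ⟨fun i hi => (e1 i hi).mpr (h1 i hi), fun i hi => (e2 i hi).mpr (h2 i hi)⟩

/-- the map given by a family exists -/
theorem Sys.exists_given (h : Sys A B d a P d b Q) {L' : ℕ → Submodule K V}
    (σ : ∀ j, LW d P Q j ≃ₗ[K] L' j) : ∃! S : Module.End K V, GivenBy A d a σ S := by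
  obtain ⟨S, hS⟩ := Sys.exists_map h (W := V)
    (fun j s => aeval A (str a j s) ∘ₗ (L' j).subtype ∘ₗ (σ j).toLinearMap)
  refine ⟨S, fun j s hjs q => hS j s hjs q, fun S' hS' => ?_⟩
  exact Sys.map_ext h S' S fun j s hjs q hq =>
    (hS' j s hjs ⟨q, hq⟩).trans (hS j s hjs ⟨q, hq⟩).symm

/-- maps given by a family are admissible -/
theorem Sys.adm_of_given (h : Sys A B d a P d b Q)
    (σ : ∀ j, LW d P Q j ≃ₗ[K] LW d P (fun i => Q (d - i)) j) {S : Module.End K V}
    (hS : GivenBy A d a σ S) : Admissible A B d a b S := by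
  obtain ⟨T, hT, -⟩ := Sys.exists_given h.revB (fun j => (σ j).symm)
  have hS' : ∀ j s, 2 * j + s ≤ d → ∀ q : LW d P Q j,
      S (aeval A (str a j s) (q : V)) = aeval A (str a j s) (σ j q : V) := hS
  have hT' : ∀ j s, 2 * j + s ≤ d → ∀ q : LW d P (fun i => Q (d - i)) j,
      T (aeval A (str a j s) (q : V)) = aeval A (str a j s) ((σ j).symm q : V) := hT
  have hst : ∀ v, S (T v) = v := by
    intro v
    have : S ∘ₗ T = LinearMap.id := by
      refine Sys.map_ext h.revB _ _ fun j s hjs q hq => ?_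
      rw [LinearMap.comp_apply, hT' j s hjs ⟨q, hq⟩, hS' j s hjs, LinearEquiv.apply_symm_apply]
      rfl
    exact LinearMap.congr_fun this v
  have hts : ∀ v, T (S v) = v := by
    intro v
    have : T ∘ₗ S = LinearMap.id := by
      refine Sys.map_ext h _ _ fun j s hjs q hq => ?_
      rw [LinearMap.comp_apply, hS' j s hjs ⟨q, hq⟩, hT' j s hjs, LinearEquiv.symm_apply_apply]
      rfl
    exact LinearMap.congr_fun this v
  have hSA : ∀ v, S (A v) = A (S v) := by
    refine Sys.comm_of h (fun j q => (σ j q : V)) (fun j q k hk hkj => ?_) hS'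
    rcases hkj with hkj | hkj
    · exact (mem_LW.mp (σ j q).2).2.1 k hk hkj
    · exact LW_P (σ j q).2 k hk hkj
  have hTA : ∀ v, T (A v) = A (T v) := by
    intro v
    have h1 := hSA (T v)
    rw [hst] at h1
    rw [← hts (A (T v)), h1]
  have hSF : ∀ i ≤ d, ∀ v : V, (∀ k ≤ d, i < k → Q k v = 0) →
      ∀ k ≤ d, i < k → Q (d - k) (S v) = 0 := fun i hi v hv k hk hik =>
    Sys.flag_of h h.revB (fun j q => (σ j q : V)) (fun j q => (mem_LW.mp (σ j q).2).1) hS' i hi v
      hv k hk hik
  have hTF : ∀ i ≤ d, ∀ v : V, (∀ k ≤ d, i < k → Q (d - k) v = 0) →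
      ∀ k ≤ d, i < k → Q k (T v) = 0 := by
    intro i hi v hv k hk hik
    have h1 := Sys.flag_of h.revB h (fun j q => ((σ j).symm q : V))
      (fun j q => (mem_LW.mp ((σ j).symm q).2).1) hT' i hi v hv k hk hik
    exact h1
  rw [admissible_iff h.iA h.iB]
  refine ⟨fun i hi v => ⟨fun hv => ⟨T v, ?_, hst v⟩, ?_⟩, fun i hi v => ⟨fun hv =>
    ⟨T v, hTF i hi v fun k hk hik => hv (d - k) (by omega) (by omega), hst v⟩, ?_⟩⟩
  · rw [← hTA, hv, map_smul]
  · rintro ⟨w, hw, rfl⟩
    rw [← hSA, hw, map_smul]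
  · rintro ⟨w, hw, rfl⟩ k hk hki
    have h1 := hSF i hi w hw (d - k) (by omega) (by omega)
    rwa [Nat.sub_sub_self hk] at h1

/-- admissible maps are given by a unique family -/
theorem Sys.given_of_adm [FiniteDimensional K V] (h : Sys A B d a P d b Q) {S : Module.End K V}
    (hS : Admissible A B d a b S) :
    ∃! σ : ∀ j, LW d P Q j ≃ₗ[K] LW d P (fun i => Q (d - i)) j, GivenBy A d a σ S := by
  rw [admissible_iff h.iA h.iB] at hS
  obtain ⟨h1, h2⟩ := hS
  have hSA : ∀ v, S (A v) = A (S v) := by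
    intro v
    have hE : ∀ i ≤ d, S (A (P i v)) = A (S (P i v)) := by
      intro i hi
      have h3 := h.iA.eig i hi v
      have h4 := (h1 i hi (S (P i v))).mpr ⟨P i v, h3, rfl⟩
      rw [h4, h3, map_smul]
    rw [← h.iA.sum v]
    simp only [map_sum]
    refine Finset.sum_congr rfl fun i hi => hE i ?_
    simpa [Nat.lt_succ_iff] using hi
  have hsurj : Function.Surjective S := by
    intro v
    have h3 : ∀ i, ∃ w, i ≤ d → S w = P i v := by
      intro i
      by_cases hi : i ≤ d
      · obtain ⟨w, -, hw⟩ := (h1 i hi (P i v)).mp (h.iA.eig i hi v)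
        exact ⟨w, fun _ => hw⟩
      · exact ⟨0, fun hi' => absurd hi' hi⟩
    choose w hw using h3
    refine ⟨∑ i ∈ Finset.range (d + 1), w i, ?_⟩
    rw [map_sum]
    conv_rhs => rw [← h.iA.sum v]
    refine Finset.sum_congr rfl fun i hi => hw i ?_
    simpa [Nat.lt_succ_iff] using hi
  have hinj : Function.Injective S := LinearMap.injective_iff_surjective.mpr hsurj
  have hP : ∀ i ≤ d, ∀ v, P i (S v) = S (P i v) := fun i hi v => comm_P h.iA hSA i hi v
  have hmem : ∀ j, ∀ q : V, S q ∈ LW d P (fun i => Q (d - i)) j ↔ q ∈ LW d P Q j := by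
    intro j q
    by_cases hj : j ≤ d
    · rw [mem_LW, mem_LW]
      constructor
      · rintro ⟨h3, h4, h5⟩
        refine ⟨?_, fun k hk hkj => ?_, fun k hk hkj => ?_⟩
        · obtain ⟨w, hw, hSw⟩ := (h2 j hj (S q)).mp (fun k hk hki => by
            have h6 := h3 (d - k) (by omega) (by omega)
            rwa [Nat.sub_sub_self hk] at h6)
          rw [← hinj hSw]
          exact hw
        · have h6 := h4 k hk hkj
          rw [hP k hk, ← map_zero S] at h6
          exact hinj h6
        · have h6 := h5 k hk hkj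
          rw [hP (d - k) (by omega), ← map_zero S] at h6
          exact hinj h6
      · rintro ⟨h3, h4, h5⟩
        refine ⟨fun k hk hjk => ?_, fun k hk hkj => ?_, fun k hk hkj => ?_⟩
        · exact (h2 j hj (S q)).mpr ⟨q, h3, rfl⟩ (d - k) (by omega) (by omega)
        · rw [hP k hk, h4 k hk hkj, map_zero]
        · rw [hP (d - k) (by omega), h5 k hk hkj, map_zero]
    · constructor
      · intro h3
        have h4 := Sys.LW_big h.revB j (by omega) (S q) h3
        rw [← map_zero S] at h4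
        rw [hinj h4]
        exact Submodule.zero_mem _
      · intro h3
        rw [Sys.LW_big h j (by omega) q h3, map_zero]
        exact Submodule.zero_mem _
  let τ : ∀ j, LW d P Q j →ₗ[K] LW d P (fun i => Q (d - i)) j := fun j =>
    (S ∘ₗ (LW d P Q j).subtype).codRestrict _ (fun q => (hmem j q).mpr q.2)
  have hτ : ∀ j, ∀ q : LW d P Q j, (τ j q : V) = S q := fun j q => rfl
  have hbij : ∀ j, Function.Bijective (τ j) := by
    intro j
    constructor
    · intro x y hxy
      have h3 : (τ j x : V) = τ j y := congrArg Subtype.val hxy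
      rw [hτ, hτ] at h3
      exact Subtype.ext (hinj h3)
    · rintro ⟨y, hy⟩
      obtain ⟨x, rfl⟩ := hsurj y
      exact ⟨⟨x, (hmem j x).mp hy⟩, Subtype.ext rfl⟩
  have hcomm : ∀ p : K[X], ∀ v, S (aeval A p v) = aeval A p (S v) := by
    intro p v
    induction p using Polynomial.induction_on' generalizing v with
    | add p q hp hq => simp only [map_add, LinearMap.add_apply, hp, hq]
    | monomial n c =>
      rw [aeval_monomial, Module.End.mul_apply, Module.End.mul_apply,
        Module.algebraMap_end_apply, Module.algebraMap_end_apply, map_smul]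
      congr 1
      induction n generalizing v with
      | zero => simp
      | succ n ih => rw [pow_succ, Module.End.mul_apply, Module.End.mul_apply, ih, hSA]
  refine ⟨fun j => LinearEquiv.ofBijective (τ j) (hbij j), fun j s hjs q => ?_, fun σ' hσ' => ?_⟩
  · exact hcomm _ _
  · funext j
    by_cases hj : 2 * j ≤ d
    · ext q
      have h3 := hσ' j 0 (by omega) q
      rw [tau, str_zero, map_one, Module.End.one_apply, Module.End.one_apply] at h3
      exact h3.symm
    · ext q
      have h4 := Sys.LW_big h j (by omega) q q.2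
      have h5 : q = 0 := Subtype.ext h4
      rw [h5, map_zero, map_zero]

theorem sum_range_inj (n m : ℕ → ℕ) (k : ℕ)
    (h : ∀ i ≤ k, ∑ j ∈ Finset.range (i + 1), n j = ∑ j ∈ Finset.range (i + 1), m j) :
    ∀ i ≤ k, n i = m i := by
  intro i hi
  have h1 := h i hi
  rw [Finset.sum_range_succ, Finset.sum_range_succ] at h1
  rcases i with _ | i
  · simpa using h1
  · have h2 := h i (by omega)
    omega

/-- The main theorem on admissible maps. -/
theorem main_adm [FiniteDimensional K V] (hA : TDOrdering A B d a) (hB : TDOrdering B A d b)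
    (irred : Irred A B) :
    StringDecomp A B d a b ∧ DimEigenspaces A B d a b ∧
    (∀ j, finrank K (Low A B d a b j) = finrank K (Low A B d a (fun i => b (d - i)) j)) ∧
    ∃ e : {S : Module.End K V // Admissible A B d a b S} ≃
        (∀ j, Low A B d a b j ≃ₗ[K] Low A B d a (fun i => b (d - i)) j),
      ∀ S, GivenBy A d a (e S) S.1 := by
  have h := TDOrdering.sys hA hB irred
  have hB' : TDOrdering B A d (fun i => b (d - i)) :=
    tdOrdering_of h.revB.iB h.revB.neB h.revB.triB
  have hL := Low_eq h.iA h.iB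
  have hL' := Low_eq h.iA h.revB.iB
  refine ⟨(main hA hB irred).1, (main_dim hA hB irred).2, ?_, ?_⟩
  · intro j
    by_cases hj : 2 * j ≤ d
    · refine sum_range_inj (fun j => finrank K (Low A B d a b j))
        (fun j => finrank K (Low A B d a (fun i => b (d - i)) j)) j (fun i hi => ?_) j le_rfl
      have h1 := (main_dim hA hB irred).2 i (by omega)
      have h2 := (main_dim hA hB' irred).2 i (by omega)
      rw [show min i (d - i) = i by omega] at h1 h2
      rw [← h1, ← h2]
    · rw [hL, hL']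
      have e1 : LW d (fun i => proj A (vals d a) (a i)) (fun i => proj B (vals d b) (b i)) j = ⊥ := by
        rw [eq_bot_iff]
        intro q hq
        exact Sys.LW_big h j (by omega) q hq
      have e2 : LW d (fun i => proj A (vals d a) (a i))
          (fun i => proj B (vals d b) (b (d - i))) j = ⊥ := by
        rw [eq_bot_iff]
        intro q hq
        exact Sys.LW_big h.revB j (by omega) q hq
      rw [e1, e2]
  · rw [hL, hL']
    choose S hS hSu using fun σ => Sys.exists_given h
      (L' := LW d (fun i => proj A (vals d a) (a i)) (fun i => proj B (vals d b) (b (d - i)))) σ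
    choose σ hσ hσu using fun S : {S : Module.End K V // Admissible A B d a b S} =>
      Sys.given_of_adm h S.2
    refine ⟨⟨σ, fun τ => ⟨S τ, Sys.adm_of_given h τ (hS τ)⟩, ?_, ?_⟩, hσ⟩
    · intro T
      exact Subtype.ext (hSu (σ T) T.1 (hσ T)).symm
    · intro τ
      exact (hσu ⟨S τ, Sys.adm_of_given h τ (hS τ)⟩ τ (hS τ)).symm

end Pool.Agent.H370.Adm
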