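import Pool.Agent.H676.LC.Stm

/-!
# Circuits symmetric under a set of permutations (task LC-SYM2 of helper676)
-/

set_option autoImplicit false

namespace Pool.Agent.H370.LCSYM2

open Pool.Agent.H676.SC Pool.Agent.H676.LC

variable {V D L : Type}

theorem value_eq (C : Circuit V D L) (G : SimpleGraph V) (g : C.Gate) :
    C.value G g = C.fn g ((C.read g).map (bit G)) ((C.wires g).map fun e => (e.1, C.value G e.2)) := by
  rw [Circuit.value]
  rw [Multiset.attach_map_val' (C.wires g) (fun e => (e.1, C.value G e.2))]

theorem bit_comap (G : SimpleGraph V) (σ : Equiv.Perm V) (c : V × V) :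
    bit (G.comap σ) c = bit G (Prod.map σ σ c) := by
  unfold bit
  rfl

theorem value_perm (C : Circuit V D L) (σ : Equiv.Perm V) (π : Equiv.Perm C.Gate)
    (h : ∀ g, C.read (π g) = (C.read g).map (Prod.map σ σ) ∧
      C.wires (π g) = (C.wires g).map (Prod.map id π) ∧ C.fn (π g) = C.fn g) (G : SimpleGraph V) :
    ∀ N : ℕ, ∀ g, C.rank g < N → C.value G (π g) = C.value (G.comap σ) g := by
  intro N
  induction N with
  | zero => intro g hg; exact absurd hg (Nat.not_lt_zero _)
  | succ N ih =>
    intro g hg
    obtain ⟨h1, h2, h3⟩ := h g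
    rw [value_eq C G (π g), value_eq C (G.comap σ) g, h1, h2, h3, Option.map_map, Multiset.map_map]
    have e1 : (bit G) ∘ (Prod.map σ σ) = bit (G.comap σ) := by
      funext c
      rw [bit_comap]
      rfl
    have e2 : (C.wires g).map ((fun e : L × C.Gate => (e.1, C.value G e.2)) ∘ Prod.map id π) =
        (C.wires g).map (fun e => (e.1, C.value (G.comap σ) e.2)) := by
      refine Multiset.map_congr rfl ?_
      intro e he
      have h4 := C.rank_lt g e he
      show (e.1, C.value G (π e.2)) = (e.1, C.value (G.comap σ) e.2)
      rw [ih e.2 (by omega)]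
    rw [e1, e2]

theorem t_SYM2 : Pool.Agent.H676.LC.S_SYM2 := by
  intro V D L _ C S hC
  refine ⟨?_, ?_⟩
  · intro g
    have : Finite C.Gate := C.finite
    have hsub : C.wiring g '' S ⊆ Set.range (fun g' => C.wiring g' 1) := by
      rintro _ ⟨σ, hσ, rfl⟩
      obtain ⟨π, -, h⟩ := hC σ hσ
      refine ⟨π g, ?_⟩
      obtain ⟨h1, h2, -⟩ := h g
      show C.wiring (π g) 1 = C.wiring g σ
      unfold Circuit.wiring
      rw [h1, h2, Option.map_map, Multiset.map_map]
      have hone : ∀ G : SimpleGraph V, G.comap ((1 : Equiv.Perm V) : V → V) = G := by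
        intro G
        ext a b
        rfl
      refine Prod.ext ?_ ?_
      · show Option.map _ (C.read g) = Option.map _ (C.read g)
        refine congrArg (fun f => Option.map f (C.read g)) ?_
        funext c G
        show bit (G.comap ((1 : Equiv.Perm V) : V → V)) (Prod.map σ σ c) = bit (G.comap σ) c
        rw [hone, bit_comap]
      · show Multiset.map _ (C.wires g) = Multiset.map _ (C.wires g)
        refine Multiset.map_congr rfl ?_
        intro e _
        show (e.1, fun G : SimpleGraph V => C.value (G.comap ((1 : Equiv.Perm V) : V → V)) (π e.2)) =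
          (e.1, fun G : SimpleGraph V => C.value (G.comap σ) e.2)
        refine Prod.ext rfl ?_
        funext G
        show C.value (G.comap ((1 : Equiv.Perm V) : V → V)) (π e.2) = C.value (G.comap σ) e.2
        rw [hone]
        exact value_perm C σ π h G (C.rank e.2 + 1) e.2 (Nat.lt_succ_self _)
    unfold numWiringsUnder Circuit.size
    exact (Nat.card_mono (Set.finite_range _) hsub).trans (Finite.card_range_le _)
  · intro G σ hσ
    obtain ⟨π, h0, h⟩ := hC σ hσ
    unfold Circuit.output
    rw [← value_perm C σ π h G (C.rank C.out + 1) C.out (Nat.lt_succ_self _), h0]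

end Pool.Agent.H370.LCSYM2
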