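import Pool.Agent.H857.TF.Core3

/-!
# N2: the Weil polynomials among the `G c p A B n` (helper370 for helper857)

Adapted from the pieces T1a (helper42) and T1 (helper729).
-/

set_option autoImplicit false

namespace Pool.Agent.H370.TFn2

open Module Polynomial Pool.Agent.W521.Descent Pool.Agent.W521.Density Pool.Agent.W521.Count
  Pool.Agent.X297.UB Pool.Agent.H857.PB Pool.Agent.H857.PA Pool.Agent.H857.HK Pool.Agent.H857.EF
  Pool.Agent.H857.WT Pool.Agent.H857.SG Pool.Agent.H857.PD Pool.Agent.H857.TF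

theorem exists_sqrt (a : ℂ) : ∃ d : ℂ, d * d = a := by
  obtain ⟨d, hd⟩ := IsAlgClosed.exists_eq_mul_self a
  exact ⟨d, hd.symm⟩

/-- the roots of a cubic -/
theorem cubic (a b c : ℂ) : ∃ x y z : ℂ, x + y + z = -a ∧ x * y + y * z + z * x = b ∧
    x * y * z = -c := by
  obtain ⟨P, hP⟩ : ∃ P : ℂ[X], P = X ^ 3 + C a * X ^ 2 + C b * X + C c := ⟨_, rfl⟩
  have hdeg : P.degree = 3 := by
    rw [hP]
    compute_degree!
  obtain ⟨x, hx⟩ := IsAlgClosed.exists_root P (by rw [hdeg]; decide)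
  have h1 : x ^ 3 + a * x ^ 2 + b * x + c = 0 := by
    rw [IsRoot.def, hP] at hx
    simpa using hx
  obtain ⟨d, hd⟩ := exists_sqrt ((-a - x) ^ 2 - 4 * (b + a * x + x ^ 2))
  refine ⟨x, (-a - x + d) / 2, (-a - x - d) / 2, by ring, ?_, ?_⟩
  · linear_combination (-1 / 4) * hd
  · linear_combination (-x / 4) * hd + h1

/-- a real cubic polynomial has a real root -/
theorem exists_root (a b c : ℝ) : ∃ r : ℝ, r ^ 3 + a * r ^ 2 + b * r + c = 0 := by
  have hcont : Continuous fun r : ℝ => r ^ 3 + a * r ^ 2 + b * r + c := by fun_prop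
  obtain ⟨s, hs⟩ : ∃ s : ℝ, s = |a| + |b| + |c| := ⟨_, rfl⟩
  have ha := abs_nonneg a
  have hb := abs_nonneg b
  have hc := abs_nonneg c
  have hs0 : 0 ≤ s := by rw [hs]; positivity
  have hM : 1 ≤ 1 + s := by linarith
  have h2 : (1 + s) ^ 2 ≥ 1 + s := by nlinarith
  have h3 : (1 + s) ^ 2 ≥ 1 := by nlinarith
  have k1 : |a| * (1 + s) ^ 2 + |b| * (1 + s) + |c| ≤ s * (1 + s) ^ 2 := by
    rw [hs] at h2 h3 ⊢
    nlinarith [mul_le_mul_of_nonneg_left h2 hb, mul_le_mul_of_nonneg_left h3 hc]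
  have hpos : 0 ≤ (1 + s) ^ 3 + a * (1 + s) ^ 2 + b * (1 + s) + c := by
    have l1 : -(|a| * (1 + s) ^ 2) ≤ a * (1 + s) ^ 2 := by
      nlinarith [neg_abs_le a, sq_nonneg (1 + s)]
    have l2 : -(|b| * (1 + s)) ≤ b * (1 + s) := by
      nlinarith [neg_abs_le b]
    have l3 := neg_abs_le c
    nlinarith [sq_nonneg (1 + s)]
  have hneg : (-(1 + s)) ^ 3 + a * (-(1 + s)) ^ 2 + b * (-(1 + s)) + c ≤ 0 := by
    have l1 : a * (1 + s) ^ 2 ≤ |a| * (1 + s) ^ 2 := by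
      nlinarith [le_abs_self a, sq_nonneg (1 + s)]
    have l2 : -(b * (1 + s)) ≤ |b| * (1 + s) := by
      nlinarith [neg_abs_le b]
    have l3 := le_abs_self c
    nlinarith [sq_nonneg (1 + s)]
  obtain ⟨r, hr⟩ := mem_range_of_exists_le_of_exists_ge hcont ⟨_, hneg⟩ ⟨_, hpos⟩
  exact ⟨r, hr⟩

/-- real roots of a cubic polynomial with a nonnegative discriminant -/
theorem roots_of_disc {a b c : ℝ}
    (hd : 0 ≤ a ^ 2 * b ^ 2 - 4 * b ^ 3 - 4 * a ^ 3 * c + 18 * a * b * c - 27 * c ^ 2) :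
    ∃ x y z : ℝ, x + y + z = -a ∧ x * y + y * z + z * x = b ∧ x * y * z = -c := by
  obtain ⟨r, hr⟩ := exists_root a b c
  obtain ⟨u, hu⟩ : ∃ u : ℝ, u = a + r := ⟨_, rfl⟩
  obtain ⟨v, hv⟩ : ∃ v : ℝ, v = b + r * u := ⟨_, rfl⟩
  have hc : c = -(r * v) := by rw [hv, hu]; linear_combination hr
  have hb : b = v - r * u := by rw [hv]; ring
  have ha : a = u - r := by rw [hu]; ring
  have hdisc : a ^ 2 * b ^ 2 - 4 * b ^ 3 - 4 * a ^ 3 * c + 18 * a * b * c - 27 * c ^ 2 =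
      (u ^ 2 - 4 * v) * (r ^ 2 + u * r + v) ^ 2 := by
    rw [hc, hb, ha]; ring
  rw [hdisc] at hd
  have key : ∃ y z : ℝ, y + z = -u ∧ y * z = v := by
    by_cases h0 : r ^ 2 + u * r + v = 0
    · exact ⟨r, -u - r, by ring, by linear_combination -h0⟩
    · have h1 : 0 < (r ^ 2 + u * r + v) ^ 2 := by positivity
      have h2 : 0 ≤ u ^ 2 - 4 * v := nonneg_of_mul_nonneg_left hd h1
      refine ⟨(-u + Real.sqrt (u ^ 2 - 4 * v)) / 2, (-u - Real.sqrt (u ^ 2 - 4 * v)) / 2,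
        by ring, ?_⟩
      have h3 := Real.mul_self_sqrt h2
      linear_combination (-1 / 4) * h3
  obtain ⟨y, z, hyz, hyz2⟩ := key
  refine ⟨r, y, z, ?_, ?_, ?_⟩
  · linear_combination hyz - hu
  · linear_combination r * hyz + hyz2 - hb
  · linear_combination r * hyz2 + hc

theorem aeval_G (c p A B n : ℤ) (z : ℂ) : aeval z (G c p A B n) = z ^ 6 + A * z ^ 5 +
    (n + c * p * B) * z ^ 4 + c * p * A * B * z ^ 3 + c ^ 2 * p * (n + c * p * B) * z ^ 2 +
    (c ^ 2 * p) ^ 2 * A * z + (c ^ 2 * p) ^ 3 := by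
  unfold G
  simp only [map_add, map_mul, map_pow, aeval_X, eq_intCast, map_intCast]

theorem monic_G (c p A B n : ℤ) : (G c p A B n).Monic := by
  unfold G
  monicity!

theorem natDegree_G (c p A B n : ℤ) : (G c p A B n).natDegree = 6 := by
  unfold G
  compute_degree!

theorem coeff_G (c p A B n : ℤ) : (G c p A B n).coeff 0 = (c ^ 2 * p) ^ 3 := by
  rw [coeff_zero_eq_eval_zero]
  unfold G
  simp

/-- a root of the real polynomial is real -/
theorem real_of {q : ℝ} {a b e θ : ℂ} (hq : 0 < q)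
    (hF : ∀ z : ℂ, z ^ 6 + a * z ^ 5 + (b + 3 * q) * z ^ 4 + (e + 2 * q * a) * z ^ 3 +
      q * (b + 3 * q) * z ^ 2 + q ^ 2 * a * z + q ^ 3 = 0 → ‖z‖ ^ 2 = q)
    (hθ : θ ^ 3 + a * θ ^ 2 + b * θ + e = 0) : ∃ x : ℝ, θ = x ∧ x ^ 2 ≤ 4 * q := by
  obtain ⟨d, hd⟩ := exists_sqrt (θ ^ 2 - 4 * q)
  obtain ⟨z, hz⟩ : ∃ z : ℂ, z = (θ + d) / 2 := ⟨_, rfl⟩
  have e1 : θ * z = z ^ 2 + q := by
    rw [hz]
    linear_combination (-1 / 4) * hd
  have hz1 := hF z (by
    linear_combination (-((θ * z) ^ 2 + θ * z * (z ^ 2 + q) + (z ^ 2 + q) ^ 2) -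
      a * z * (θ * z + (z ^ 2 + q)) - b * z ^ 2) * e1 + z ^ 3 * hθ)
  have hz0 : z ≠ 0 := by
    intro h
    rw [h, norm_zero] at hz1
    norm_num at hz1
    linarith
  have hc : z * (starRingEnd ℂ) z = q := by
    rw [Complex.mul_conj, Complex.normSq_eq_norm_sq, hz1]
  have h1 : θ = z + (starRingEnd ℂ) z := by
    apply mul_right_cancel₀ hz0
    linear_combination e1 - hc
  refine ⟨2 * z.re, by rw [h1, Complex.add_conj], ?_⟩
  have h2 : ‖z‖ ^ 2 = z.re * z.re + z.im * z.im := by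
    rw [← Complex.normSq_eq_norm_sq, Complex.normSq_apply]
  nlinarith [mul_self_nonneg z.im]

/-- a root of a quadratic factor -/
theorem norm_of {q θ : ℝ} {w : ℂ} (h : w ^ 2 - θ * w + q = 0) :
    (starRingEnd ℂ) w = w ∨ ‖w‖ ^ 2 = q := by
  have h1 : ((starRingEnd ℂ) w) ^ 2 - θ * (starRingEnd ℂ) w + q = 0 := by
    have h2 := congrArg (starRingEnd ℂ) h
    simpa using h2
  by_cases hw : (starRingEnd ℂ) w = w
  · exact Or.inl hw
  · right
    have h2 : (w - (starRingEnd ℂ) w) * (w + (starRingEnd ℂ) w - θ) = 0 := by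
      linear_combination h - h1
    have h3 : w + (starRingEnd ℂ) w - θ = 0 := by
      rcases mul_eq_zero.1 h2 with h4 | h4
      · exact absurd (sub_eq_zero.1 h4).symm hw
      · exact h4
    have h4 : w * (starRingEnd ℂ) w = q := by
      linear_combination w * h3 - h
    rw [Complex.mul_conj, Complex.normSq_eq_norm_sq] at h4
    exact_mod_cast h4

/-- the real roots, real variables -/
theorem real_case {c p A B n q r : ℝ} (hc : 0 < c) (hp : 0 < p) (hq : q = c ^ 2 * p)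
    (hn : 4 * n = A ^ 2 + p * B ^ 2)
    (hR : A ^ 4 + 2 * p * A ^ 2 * (B ^ 2 - 24 * B * c + 36 * c ^ 2) ≤
      p ^ 2 * (2 * c - B) * (B + 6 * c) ^ 3)
    (hr : r ^ 6 + A * r ^ 5 + (n + c * p * B) * r ^ 4 + c * p * A * B * r ^ 3 +
      c ^ 2 * p * (n + c * p * B) * r ^ 2 + (c ^ 2 * p) ^ 2 * A * r + (c ^ 2 * p) ^ 3 = 0) :
    r ^ 2 = q := by
  have hq0 : 0 < q := by rw [hq]; positivity
  have h1 : (2 * r ^ 3 + A * r ^ 2 + c * p * B * r) ^ 2 +
      p * (B * r ^ 2 + c * A * r + 2 * q * c) ^ 2 = 0 := by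
    rw [hq]
    linear_combination 4 * hr - (r ^ 4 + c ^ 2 * p * r ^ 2) * hn
  have h2 : 2 * r ^ 3 + A * r ^ 2 + c * p * B * r = 0 := by
    have : (2 * r ^ 3 + A * r ^ 2 + c * p * B * r) ^ 2 = 0 := by
      nlinarith [sq_nonneg (2 * r ^ 3 + A * r ^ 2 + c * p * B * r),
        mul_nonneg hp.le (sq_nonneg (B * r ^ 2 + c * A * r + 2 * q * c))]
    exact pow_eq_zero_iff two_ne_zero |>.1 this
  have h3 : B * r ^ 2 + c * A * r + 2 * q * c = 0 := by
    rw [h2] at h1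
    have : p * (B * r ^ 2 + c * A * r + 2 * q * c) ^ 2 = 0 := by linarith
    rcases mul_eq_zero.1 this with h4 | h4
    · exact absurd h4 hp.ne'
    · exact pow_eq_zero_iff two_ne_zero |>.1 h4
  have hr0 : r ≠ 0 := by
    intro h
    rw [h] at h3
    have : q * c = 0 := by linarith
    rcases mul_eq_zero.1 this with h4 | h4
    · exact hq0.ne' h4
    · exact hc.ne' h4
  have h4 : 2 * r ^ 2 + A * r + c * p * B = 0 := by
    apply mul_left_cancel₀ hr0
    linear_combination h2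
  have h5 : (B - 2 * c) * (r ^ 2 - q) = 0 := by
    rw [hq] at h3 ⊢
    linear_combination h3 - c * h4
  rcases mul_eq_zero.1 h5 with h6 | h6
  · have hB : B = 2 * c := by linarith
    subst hB
    have h7 : A ^ 2 * (A ^ 2 - 16 * q) ≤ 0 := by
      rw [hq]
      linarith
    have h8 : (4 * r + A) ^ 2 = A ^ 2 - 16 * q := by
      rw [hq]
      linear_combination 8 * h4
    have h9 : A ≠ 0 := by
      intro h
      rw [h] at h8
      nlinarith [sq_nonneg (4 * r + 0)]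
    have h10 : 0 < A ^ 2 := by positivity
    have h11 : A ^ 2 - 16 * q ≤ 0 := by
      by_contra h12
      push Not at h12
      have := mul_pos h10 h12
      linarith
    have h12 : (4 * r + A) ^ 2 = 0 := by
      have := sq_nonneg (4 * r + A)
      linarith
    have h13 : 4 * r + A = 0 := pow_eq_zero_iff two_ne_zero |>.1 h12
    have h14 : A = -4 * r := by linarith
    rw [h12, h14] at h8
    linarith
  · linarith

theorem main (c p A B n : ℤ) (q : ℕ) (hc : 0 < c) (hp : 0 < p) (hq : (q : ℤ) = c ^ 2 * p)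
    (hn : 4 * n = A ^ 2 + p * B ^ 2) : G c p A B n ∈ weilPolys q 3 ↔ RegN c p A B := by
  have hcr : (0 : ℝ) < c := by exact_mod_cast hc
  have hpr : (0 : ℝ) < p := by exact_mod_cast hp
  have hqr : ((q : ℕ) : ℝ) = (c : ℝ) ^ 2 * p := by exact_mod_cast hq
  have hqc : (((q : ℕ) : ℝ) : ℂ) = (c : ℂ) ^ 2 * p := by
    rw [hqr]
    push_cast
    rfl
  have hq0 : (0 : ℝ) < ((q : ℕ) : ℝ) := by rw [hqr]; positivity
  have hnr : 4 * (n : ℝ) = (A : ℝ) ^ 2 + p * (B : ℝ) ^ 2 := by exact_mod_cast hn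
  have hreg : RegN c p A B ↔ (A : ℝ) ^ 4 + 2 * p * (A : ℝ) ^ 2 * ((B : ℝ) ^ 2 - 24 * B * c +
      36 * (c : ℝ) ^ 2) ≤ (p : ℝ) ^ 2 * (2 * c - B) * ((B : ℝ) + 6 * c) ^ 3 := by
    unfold RegN
    constructor
    · intro h; exact_mod_cast h
    · intro h; exact_mod_cast h
  rw [hreg]
  obtain ⟨b, hb⟩ : ∃ b : ℝ, b = n + c * p * B - 3 * c ^ 2 * p := ⟨_, rfl⟩
  obtain ⟨e, he⟩ : ∃ e : ℝ, e = A * (c * p * B - 2 * c ^ 2 * p) := ⟨_, rfl⟩
  have hdisc : 16 * ((A : ℝ) ^ 2 * b ^ 2 - 4 * b ^ 3 - 4 * (A : ℝ) ^ 3 * e + 18 * A * b * e -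
      27 * e ^ 2) = p * (2 * c - B) ^ 2 * ((p : ℝ) ^ 2 * (2 * c - B) * ((B : ℝ) + 6 * c) ^ 3 -
        ((A : ℝ) ^ 4 + 2 * p * (A : ℝ) ^ 2 * ((B : ℝ) ^ 2 - 24 * B * c + 36 * (c : ℝ) ^ 2))) := by
    have hn' : (n : ℝ) = ((A : ℝ) ^ 2 + p * (B : ℝ) ^ 2) / 4 := by linarith
    rw [hb, he, hn']
    ring
  constructor
  · rintro ⟨-, -, -, hroot⟩
    have hF : ∀ z : ℂ, z ^ 6 + (A : ℂ) * z ^ 5 + ((b : ℂ) + 3 * ((q : ℕ) : ℝ)) * z ^ 4 +
        ((e : ℂ) + 2 * ((q : ℕ) : ℝ) * A) * z ^ 3 +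
        ((q : ℕ) : ℝ) * (b + 3 * ((q : ℕ) : ℝ)) * z ^ 2 + ((q : ℕ) : ℝ) ^ 2 * A * z +
        ((q : ℕ) : ℝ) ^ 3 = 0 → ‖z‖ ^ 2 = ((q : ℕ) : ℝ) := by
      intro z hz
      apply hroot z
      rw [aeval_G]
      rw [hqc, hb, he] at hz
      push_cast at hz
      linear_combination hz
    obtain ⟨x, y, z, h1, h2, h3⟩ := cubic (A : ℂ) (b : ℂ) (e : ℂ)
    obtain ⟨x', hx, hx'⟩ := real_of (θ := x) hq0 hF (by
      linear_combination x ^ 2 * h1 - x * h2 + h3)
    obtain ⟨y', hy, hy'⟩ := real_of (θ := y) hq0 hF (by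
      linear_combination y ^ 2 * h1 - y * h2 + h3)
    obtain ⟨z', hz, hz'⟩ := real_of (θ := z) hq0 hF (by
      linear_combination z ^ 2 * h1 - z * h2 + h3)
    rw [hx, hy, hz] at h1 h2 h3
    have g1 : x' + y' + z' = -(A : ℝ) := by exact_mod_cast h1
    have g2 : x' * y' + y' * z' + z' * x' = b := by exact_mod_cast h2
    have g3 : x' * y' * z' = -e := by exact_mod_cast h3
    by_cases hB : (B : ℝ) = 2 * c
    · have hlin : (((-A / 2 : ℝ)) : ℂ) ^ 3 + (A : ℂ) * (((-A / 2 : ℝ)) : ℂ) ^ 2 +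
          (b : ℂ) * (((-A / 2 : ℝ)) : ℂ) + (e : ℂ) = 0 := by
        have : (-(A : ℝ) / 2) ^ 3 + A * (-(A : ℝ) / 2) ^ 2 + b * (-(A : ℝ) / 2) + e = 0 := by
          have hn' : (n : ℝ) = ((A : ℝ) ^ 2 + p * (B : ℝ) ^ 2) / 4 := by linarith
          rw [hb, he, hn', hB]
          ring
        exact_mod_cast this
      obtain ⟨w, hw, hw'⟩ := real_of hq0 hF hlin
      have hw1 : -(A : ℝ) / 2 = w := by exact_mod_cast hw
      rw [← hw1] at hw'
      have hA2 : (A : ℝ) ^ 2 ≤ 16 * ((c : ℝ) ^ 2 * p) := by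
        rw [← hqr]
        linarith
      rw [hB]
      nlinarith [mul_le_mul_of_nonneg_left hA2 (sq_nonneg (A : ℝ))]
    · have hd : (A : ℝ) ^ 2 * b ^ 2 - 4 * b ^ 3 - 4 * (A : ℝ) ^ 3 * e + 18 * A * b * e -
          27 * e ^ 2 = ((x' - y') * (y' - z') * (z' - x')) ^ 2 := by
        rw [show (A : ℝ) = -(x' + y' + z') by rw [g1]; ring, ← g2,
          show e = -(x' * y' * z') by rw [g3]; ring]
        ring
      have hB2 : 0 < (p : ℝ) * (2 * c - B) ^ 2 := by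
        have : (2 * (c : ℝ) - B) ≠ 0 := fun h => hB (by linarith)
        positivity
      rw [hd] at hdisc
      have h4 : 0 ≤ (p : ℝ) * (2 * c - B) ^ 2 * ((p : ℝ) ^ 2 * (2 * c - B) *
          ((B : ℝ) + 6 * c) ^ 3 - ((A : ℝ) ^ 4 + 2 * p * (A : ℝ) ^ 2 * ((B : ℝ) ^ 2 -
          24 * B * c + 36 * (c : ℝ) ^ 2))) := by
        rw [← hdisc]
        positivity
      have h5 := nonneg_of_mul_nonneg_right h4 hB2
      linarith
  · intro hR
    refine ⟨monic_G c p A B n, natDegree_G c p A B n, ?_, ?_⟩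
    · rw [coeff_G, hq]
    · intro w hw
      rw [aeval_G] at hw
      have hex : ∃ x y z : ℝ, x + y + z = -(A : ℝ) ∧ x * y + y * z + z * x = b ∧
          x * y * z = -e := by
        apply roots_of_disc
        have h4 : 0 ≤ (p : ℝ) * (2 * c - B) ^ 2 * ((p : ℝ) ^ 2 * (2 * c - B) *
            ((B : ℝ) + 6 * c) ^ 3 - ((A : ℝ) ^ 4 + 2 * p * (A : ℝ) ^ 2 * ((B : ℝ) ^ 2 -
            24 * B * c + 36 * (c : ℝ) ^ 2))) := by
          apply mul_nonneg (by positivity)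
          linarith
        linarith
      obtain ⟨x, y, z, h1, h2, h3⟩ := hex
      have c1 : (x : ℂ) + y + z = -A := by exact_mod_cast h1
      have c2 : (x : ℂ) * y + y * z + z * x = b := by exact_mod_cast h2
      have c3 : (x : ℂ) * y * z = -e := by exact_mod_cast h3
      have hprod : (w ^ 2 - x * w + (((q : ℕ) : ℝ) : ℂ)) *
          ((w ^ 2 - y * w + (((q : ℕ) : ℝ) : ℂ)) *
          (w ^ 2 - z * w + (((q : ℕ) : ℝ) : ℂ))) = 0 := by
        rw [hqc]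
        rw [hb] at c2
        rw [he] at c3
        push_cast at c2 c3
        linear_combination hw - w * (w ^ 2 + (c : ℂ) ^ 2 * p) ^ 2 * c1 +
          w ^ 2 * (w ^ 2 + (c : ℂ) ^ 2 * p) * c2 - w ^ 3 * c3
      have hgoal : (starRingEnd ℂ) w = w ∨ ‖w‖ ^ 2 = ((q : ℕ) : ℝ) := by
        rcases mul_eq_zero.1 hprod with h4 | h4
        · exact norm_of h4
        · rcases mul_eq_zero.1 h4 with h5 | h5
          · exact norm_of h5
          · exact norm_of h5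
      rcases hgoal with h4 | h4
      · obtain ⟨r, hr⟩ := Complex.conj_eq_iff_real.1 h4
        rw [hr] at hw
        have h5 : r ^ 6 + A * r ^ 5 + (n + c * p * B) * r ^ 4 + c * p * A * B * r ^ 3 +
            c ^ 2 * p * (n + c * p * B) * r ^ 2 + (c ^ 2 * p) ^ 2 * A * r +
            (c ^ 2 * p) ^ 3 = 0 := by exact_mod_cast hw
        have h6 := real_case hcr hpr hqr hnr hR h5
        rw [hr, Complex.norm_real, Real.norm_eq_abs, sq_abs, h6]
      · exact h4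

theorem n2 : N2 := by
  intro c p A B n hc hp hn
  exact main c p A B n (c ^ 2 * p) (by exact_mod_cast hc) (by exact_mod_cast hp)
    (by push_cast; rfl) hn

end Pool.Agent.H370.TFn2
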